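import Pool.Agent.MP_77976d_ag.DetFin
import Pool.Agent.MP_77976d_ag.Ex
import Pool.Agent.MP_77976d_ag.C2
import Pool.Agent.MP_77976d_ag.Sm
import Pool.Agent.MP_77976d_ag.Can

/-!
# Moduli of rank two sheaves on an elliptic surface need not have canonical singularities

Negative answer to Q1.  `X = (C × F₀)/ι` is an elliptic surface over `P¹` of Kodaira dimension one
with `χ(O_X) = 0` and six double fibres, and `E = M ⊗ ker (V → ℂ_x)` for a flat bundle `V` of
rank two; `c₁(E) = 0`, `c₂(E) = 1`.  The moduli scheme has at `[E]` two branches crossing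
normally along a divisor, so that it is not normal.  The same holds for the moduli scheme of
sheaves with determinant `O`.
-/

open IsLocalRing Pool.Agent.EllMod

namespace Pool.Agent.Results.MP_77976d_ag.NonNormalModuli

theorem result : ∃ (K : Type) (_ : Field K) (_ : Algebra ℂ K) (X : Surf K),
    SmoothSurf X ∧ EllipticFib X ∧ CanonFibre X ∧
    ∃ (W : Type) (_ : AddCommGroup W) (_ : Module ℂ W) (_ : Module K W) (_ : IsScalarTower ℂ K W)
      (E : Lat W),
      Module.finrank K W = 2 ∧ IsCoh X E ∧ DetTrivial X E ∧ C2 X E 1 ∧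
      (∀ a b : ℕ, 0 < b → 8 * b < a → MuStable X E a b) ∧
      ∀ (R : Type) [CommRing R] [IsLocalRing R] [IsNoetherianRing R] [Algebra ℂ R],
        Nonempty (ProRep X E R) ∨ Nonempty (ProRepDet X X.O E R) →
        ¬ IsDomain (AdicCompletion (maximalIdeal R) R) := by
  obtain ⟨F, _, _, ⟨C⟩⟩ := exists_cfg
  refine ⟨↥C.K, inferInstance, inferInstance, C.surf, C.smooth,
    ⟨C.h0t_O_zero, 4, by norm_num, fun n hn => C.h0t_O n hn⟩, C.canonFibre,
    F, inferInstance, inferInstance, inferInstance, inferInstance, C.E', C.finrank_FK, C.E'_coh,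
    C.E'_det, C.E'_c2, fun a b hb hab => stable' C a b hb hab, ?_⟩
  rintro R _ _ _ _ (⟨⟨P⟩⟩ | ⟨⟨P⟩⟩)
  · obtain ⟨M', hM'⟩ := C.M_inv
    obtain ⟨P'⟩ := twist hM' C.E_coh R P
    exact not_domain' C R P'
  · exact not_domainDet' C R P

end Pool.Agent.Results.MP_77976d_ag.NonNormalModuli
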